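import Mathlib

set_option autoImplicit false

namespace Pool.Agent.H32.Cyc

/-- The ordered pair `(a, b)` of elements of `ZMod n` satisfies no nontrivial relation of
norm at most `t`. -/
def PairInd (n : ℕ) (t : ℤ) (a b : ZMod n) : Prop :=
  ∀ l m : ℤ, |l| + |m| ≤ t → (l : ZMod n) * a + (m : ZMod n) * b = 0 → l = 0 ∧ m = 0

theorem pairInd_neg {n : ℕ} {t : ℤ} {a b : ZMod n} (h : PairInd n t a b) :
    PairInd n t a (-b) := by
  intro l m hlm hz
  have := h l (-m) (by rwa [abs_neg]) (by push_cast; linear_combination hz)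
  exact ⟨this.1, by linarith [this.2]⟩

theorem dvd_of_rel {n : ℕ} {a b l m : ℤ}
    (h : (l : ZMod n) * (a : ZMod n) + (m : ZMod n) * (b : ZMod n) = 0) :
    (n : ℤ) ∣ l * a + m * b := by
  rw [← ZMod.intCast_zmod_eq_zero_iff_dvd]
  push_cast
  exact h

/-- The pair `s, s+1`. -/
theorem exists_large {n s : ℕ} (hs : 1 ≤ s) (hn : 2 * s ^ 2 + s ≤ n) :
    PairInd n (2 * (s : ℤ) - 1) ((s : ℤ) : ZMod n) (((s : ℤ) + 1 : ℤ) : ZMod n) := by
  intro l m hlm hz
  have hd := dvd_of_rel hz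
  have hsz : (1 : ℤ) ≤ s := by exact_mod_cast hs
  have hnz : 2 * (s : ℤ) ^ 2 + s ≤ n := by exact_mod_cast hn
  have hV : |l * (s : ℤ) + m * ((s : ℤ) + 1)| < n := by
    calc |l * (s : ℤ) + m * ((s : ℤ) + 1)| ≤ |l * (s : ℤ)| + |m * ((s : ℤ) + 1)| := abs_add_le _ _
      _ = |l| * s + |m| * (s + 1) := by
        rw [abs_mul, abs_mul, abs_of_nonneg (by linarith : (0 : ℤ) ≤ s),
          abs_of_nonneg (by linarith : (0 : ℤ) ≤ (s : ℤ) + 1)]
      _ ≤ (|l| + |m|) * (s + 1) := by nlinarith [abs_nonneg l, abs_nonneg m]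
      _ ≤ (2 * s - 1) * (s + 1) := by
        apply mul_le_mul_of_nonneg_right hlm; linarith
      _ < n := by nlinarith
  have h0 := Int.eq_zero_of_abs_lt_dvd hd hV
  have hdv : (s : ℤ) ∣ m := by
    refine ⟨-l - m, ?_⟩
    linear_combination h0
  obtain ⟨k, hk⟩ := hdv
  have hl : l = -((s : ℤ) + 1) * k := by
    have : (s : ℤ) * (l + ((s : ℤ) + 1) * k) = 0 := by
      rw [hk] at h0; linear_combination h0
    rcases mul_eq_zero.mp this with h | h
    · linarith
    · linarith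
  have hk0 : k = 0 := by
    by_contra hne
    have h1 : 1 ≤ |k| := Int.one_le_abs hne
    have h2 : |l| = (s + 1) * |k| := by
      rw [hl, abs_mul, abs_neg, abs_of_nonneg (by linarith : (0 : ℤ) ≤ (s : ℤ) + 1)]
    have h3 : |m| = s * |k| := by
      rw [hk, abs_mul, abs_of_nonneg (by linarith : (0 : ℤ) ≤ (s : ℤ))]
    rw [h2, h3] at hlm
    nlinarith
  subst hk0
  constructor
  · rw [hl]; ring
  · rw [hk]; ring

/-- The pair `s-1, s+1` for even `s` and even `n`. -/
theorem exists_even {n s : ℕ} (hs : 2 ≤ s) (hse : Even s) (hne : Even n)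
    (hn : 2 * s ^ 2 ≤ n) :
    PairInd n (2 * (s : ℤ) - 1) (((s : ℤ) - 1 : ℤ) : ZMod n) (((s : ℤ) + 1 : ℤ) : ZMod n) := by
  intro l m hlm hz
  have hd := dvd_of_rel hz
  have hsz : (2 : ℤ) ≤ s := by exact_mod_cast hs
  have hnz : 2 * (s : ℤ) ^ 2 ≤ n := by exact_mod_cast hn
  have h2n : (2 : ℤ) ∣ n := by
    obtain ⟨k, hk⟩ := hne
    exact ⟨k, by rw [hk]; push_cast; ring⟩
  have h2s : (2 : ℤ) ∣ s := by
    obtain ⟨k, hk⟩ := hse
    exact ⟨k, by rw [hk]; push_cast; ring⟩
  have hpar : (2 : ℤ) ∣ |l| + |m| := by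
    have h1 : (2 : ℤ) ∣ l * ((s : ℤ) - 1) + m * ((s : ℤ) + 1) := dvd_trans h2n hd
    obtain ⟨c, hc⟩ := h1
    obtain ⟨d, hd'⟩ := h2s
    have h2 : (2 : ℤ) ∣ l + m := ⟨(l + m) * d + m - c, by
      rw [hd'] at hc; linear_combination (-1) * hc⟩
    rcases abs_cases l with ⟨h3, _⟩ | ⟨h3, _⟩ <;> rcases abs_cases m with ⟨h4, _⟩ | ⟨h4, _⟩ <;>
      rw [h3, h4] <;> omega
  have hlm' : |l| + |m| ≤ 2 * s - 2 := by omega
  have hV : |l * ((s : ℤ) - 1) + m * ((s : ℤ) + 1)| < n := by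
    calc |l * ((s : ℤ) - 1) + m * ((s : ℤ) + 1)|
        ≤ |l * ((s : ℤ) - 1)| + |m * ((s : ℤ) + 1)| := abs_add_le _ _
      _ = |l| * (s - 1) + |m| * (s + 1) := by
        rw [abs_mul, abs_mul, abs_of_nonneg (by linarith : (0 : ℤ) ≤ (s : ℤ) - 1),
          abs_of_nonneg (by linarith : (0 : ℤ) ≤ (s : ℤ) + 1)]
      _ ≤ (|l| + |m|) * (s + 1) := by nlinarith [abs_nonneg l, abs_nonneg m]
      _ ≤ (2 * s - 2) * (s + 1) := by
        apply mul_le_mul_of_nonneg_right hlm'; linarith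
      _ < n := by nlinarith
  have h0 := Int.eq_zero_of_abs_lt_dvd hd hV
  have hcop : IsCoprime ((s : ℤ) - 1) ((s : ℤ) + 1) := by
    obtain ⟨d, hd'⟩ := h2s
    refine ⟨d, 1 - d, ?_⟩
    rw [hd']; ring
  have hdv : ((s : ℤ) - 1) ∣ m := by
    have : ((s : ℤ) - 1) ∣ m * ((s : ℤ) + 1) := ⟨-l, by linear_combination h0⟩
    exact hcop.dvd_of_dvd_mul_right this
  obtain ⟨k, hk⟩ := hdv
  have hl : l = -((s : ℤ) + 1) * k := by
    have : ((s : ℤ) - 1) * (l + ((s : ℤ) + 1) * k) = 0 := by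
      rw [hk] at h0; linear_combination h0
    rcases mul_eq_zero.mp this with h | h
    · linarith
    · linarith
  have hk0 : k = 0 := by
    by_contra hne
    have h1 : 1 ≤ |k| := Int.one_le_abs hne
    have h2 : |l| = (s + 1) * |k| := by
      rw [hl, abs_mul, abs_neg, abs_of_nonneg (by linarith : (0 : ℤ) ≤ (s : ℤ) + 1)]
    have h3 : |m| = (s - 1) * |k| := by
      rw [hk, abs_mul, abs_of_nonneg (by linarith : (0 : ℤ) ≤ (s : ℤ) - 1)]
    rw [h2, h3] at hlm
    nlinarith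
  subst hk0
  constructor
  · rw [hl]; ring
  · rw [hk]; ring

/-- The pair `s-2, s+2` for odd `s` and `n` congruent to `2` modulo `4`. -/
theorem exists_odd {n s : ℕ} (hs : 3 ≤ s) (hso : Odd s) (hn4 : n % 4 = 2)
    (hn : 2 * s ^ 2 ≤ n) :
    PairInd n (2 * (s : ℤ) - 1) (((s : ℤ) - 2 : ℤ) : ZMod n) (((s : ℤ) + 2 : ℤ) : ZMod n) := by
  intro l m hlm hz
  have hd := dvd_of_rel hz
  have hsz : (3 : ℤ) ≤ s := by exact_mod_cast hs
  have hnz : 2 * (s : ℤ) ^ 2 ≤ n := by exact_mod_cast hn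
  obtain ⟨e, he⟩ := hso
  have hse : (s : ℤ) = 2 * e + 1 := by rw [he]; push_cast; ring
  obtain ⟨f, hf⟩ : ∃ f : ℤ, (n : ℤ) = 4 * f + 2 := ⟨(n / 4 : ℕ), by omega⟩
  -- parity of l + m
  obtain ⟨p, hp⟩ : ∃ p : ℤ, l + m = 2 * p := by
    obtain ⟨c, hc⟩ := hd
    refine ⟨(2 * f + 1) * c - (l + m) * e - (m - l), ?_⟩
    rw [hse, hf] at hc
    linear_combination hc
  have hpar : (2 : ℤ) ∣ |l| + |m| := by
    rcases abs_cases l with ⟨h3, _⟩ | ⟨h3, _⟩ <;> rcases abs_cases m with ⟨h4, _⟩ | ⟨h4, _⟩ <;>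
      rw [h3, h4] <;> omega
  have hlm' : |l| + |m| ≤ 2 * s - 2 := by omega
  have hlpm : |l + m| ≤ 2 * s - 2 := le_trans (abs_add_le _ _) hlm'
  have hlmm : |m - l| ≤ 2 * s - 2 := by
    calc |m - l| ≤ |m| + |l| := abs_sub _ _
      _ ≤ 2 * s - 2 := by linarith
  have hVeq : l * ((s : ℤ) - 2) + m * ((s : ℤ) + 2) = s * (l + m) + 2 * (m - l) := by ring
  have hVb : |l * ((s : ℤ) - 2) + m * ((s : ℤ) + 2)| ≤ s * |l + m| + 2 * |m - l| := by
    rw [hVeq]
    calc |s * (l + m) + 2 * (m - l)| ≤ |s * (l + m)| + |2 * (m - l)| := abs_add_le _ _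
      _ = s * |l + m| + 2 * |m - l| := by
        rw [abs_mul, abs_mul, abs_of_nonneg (by linarith : (0 : ℤ) ≤ (s : ℤ))]
        norm_num
  have h0 : l * ((s : ℤ) - 2) + m * ((s : ℤ) + 2) = 0 := by
    obtain ⟨c, hc⟩ := hd
    by_cases hpo : Even p
    · -- then V is divisible by 4, so c even, so |V| small means V = 0
      obtain ⟨q, hq⟩ := hpo
      have hc2 : (2 : ℤ) ∣ c := by
        have h4 : (4 : ℤ) * (s * q + (p - l)) = (4 * f + 2) * c := by
          have h5 : l * ((s : ℤ) - 2) + m * ((s : ℤ) + 2) = 4 * (s * q + (p - l)) := by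
            rw [hVeq, hp]
            have : m = 2 * p - l := by linarith
            rw [this, hq]; ring
          rw [← h5, hc, hf]
        have h6 : (2 : ℤ) * (s * q + (p - l)) = (2 * f + 1) * c := by linarith
        have h7 : (2 : ℤ) ∣ (2 * f + 1) * c := ⟨_, h6.symm⟩
        rcases Int.prime_two.dvd_or_dvd h7 with h8 | h8
        · omega
        · exact h8
      obtain ⟨c', hc'⟩ := hc2
      have hlt : |l * ((s : ℤ) - 2) + m * ((s : ℤ) + 2)| < 2 * n := by
        calc _ ≤ s * |l + m| + 2 * |m - l| := hVb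
          _ ≤ s * (2 * s - 2) + 2 * (2 * s - 2) := by nlinarith
          _ < 2 * n := by nlinarith
      have hdv2 : (2 * (n : ℤ)) ∣ l * ((s : ℤ) - 2) + m * ((s : ℤ) + 2) :=
        ⟨c', by rw [hc, hc']; ring⟩
      exact Int.eq_zero_of_abs_lt_dvd hdv2 hlt
    · -- p odd, so |l+m| <= 2s - 4
      have hpodd : Odd p := Int.not_even_iff_odd.mp hpo
      obtain ⟨q, hq⟩ := hpodd
      have hlpm' : |l + m| ≤ 2 * s - 4 := by
        rw [hp, hq, hse] at hlpm ⊢
        rcases abs_cases (2 * (2 * q + 1)) with ⟨h3, _⟩ | ⟨h3, _⟩ <;> rw [h3] at hlpm ⊢ <;> omega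
      have hlt : |l * ((s : ℤ) - 2) + m * ((s : ℤ) + 2)| < n := by
        calc _ ≤ s * |l + m| + 2 * |m - l| := hVb
          _ ≤ s * (2 * s - 4) + 2 * (2 * s - 2) := by nlinarith
          _ < n := by nlinarith
      exact Int.eq_zero_of_abs_lt_dvd ⟨c, hc⟩ hlt
  have hcop : IsCoprime ((s : ℤ) - 2) ((s : ℤ) + 2) := by
    rw [hse]
    -- (2e-1), (2e+3)
    have h1 : IsCoprime (2 * (e : ℤ) + 1 - 2) 4 := by
      have h2 : IsCoprime (2 * (e : ℤ) + 1 - 2) 2 := ⟨-1, e, by ring⟩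
      have := h2.mul_right h2
      norm_num at this
      exact this
    have h3 := h1.add_mul_left_right 1
    have h4 : (4 : ℤ) + (2 * (e : ℤ) + 1 - 2) * 1 = 2 * (e : ℤ) + 1 + 2 := by ring
    rwa [h4] at h3
  have hdv : ((s : ℤ) - 2) ∣ m := by
    have : ((s : ℤ) - 2) ∣ m * ((s : ℤ) + 2) := ⟨-l, by linear_combination h0⟩
    exact hcop.dvd_of_dvd_mul_right this
  obtain ⟨k, hk⟩ := hdv
  have hl : l = -((s : ℤ) + 2) * k := by
    have : ((s : ℤ) - 2) * (l + ((s : ℤ) + 2) * k) = 0 := by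
      rw [hk] at h0; linear_combination h0
    rcases mul_eq_zero.mp this with h | h
    · linarith
    · linarith
  have hk0 : k = 0 := by
    by_contra hne
    have h1 : 1 ≤ |k| := Int.one_le_abs hne
    have h2 : |l| = (s + 2) * |k| := by
      rw [hl, abs_mul, abs_neg, abs_of_nonneg (by linarith : (0 : ℤ) ≤ (s : ℤ) + 2)]
    have h3 : |m| = (s - 2) * |k| := by
      rw [hk, abs_mul, abs_of_nonneg (by linarith : (0 : ℤ) ≤ (s : ℤ) - 2)]
    rw [h2, h3] at hlm
    nlinarith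
  subst hk0
  constructor
  · rw [hl]; ring
  · rw [hk]; ring

/-- Index type for the rotated boxes. -/
abbrev Box (p q r u : ℕ) : Type := (Fin p × Fin q) ⊕ (Fin r × Fin u)

/-- first coefficient -/
def cl {p q r u : ℕ} : Box p q r u → ℤ
  | Sum.inl x => (x.1 : ℤ) + (x.2 : ℤ)
  | Sum.inr x => (x.1 : ℤ) + (x.2 : ℤ) + 1

/-- second coefficient -/
def cm {p q r u : ℕ} : Box p q r u → ℤ
  | Sum.inl x => (x.1 : ℤ) - (x.2 : ℤ)
  | Sum.inr x => (x.1 : ℤ) - (x.2 : ℤ)

theorem box_inj {p q r u : ℕ} {x y : Box p q r u} (h1 : cl x = cl y) (h2 : cm x = cm y) :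
    x = y := by
  rcases x with ⟨a, b⟩ | ⟨a, b⟩ <;> rcases y with ⟨c, d⟩ | ⟨c, d⟩ <;>
    simp only [cl, cm] at h1 h2
  · have ha : (a : ℕ) = c := by omega
    have hb : (b : ℕ) = d := by omega
    rw [Fin.ext ha, Fin.ext hb]
  · omega
  · omega
  · have ha : (a : ℕ) = c := by omega
    have hb : (b : ℕ) = d := by omega
    rw [Fin.ext ha, Fin.ext hb]

theorem norm_le {x y c : ℤ} (h1 : x + y ≤ c) (h2 : x - y ≤ c) (h3 : -x + y ≤ c)
    (h4 : -x - y ≤ c) : |x| + |y| ≤ c := by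
  rcases abs_cases x with ⟨h5, _⟩ | ⟨h5, _⟩ <;> rcases abs_cases y with ⟨h6, _⟩ | ⟨h6, _⟩ <;>
    rw [h5, h6] <;> linarith

/-- In the small box all values are distinct. -/
theorem small_box_inj {n s : ℕ} {a b : ZMod n} (h : PairInd n (2 * (s : ℤ) - 1) a b) :
    Function.Injective
      (fun x : Box s s s s => ((cl x : ℤ) : ZMod n) * a + ((cm x : ℤ) : ZMod n) * b) := by
  intro x y hxy
  simp only at hxy
  have hnorm : |cl x - cl y| + |cm x - cm y| ≤ 2 * (s : ℤ) - 1 := by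
    rcases x with ⟨a, b⟩ | ⟨a, b⟩ <;> rcases y with ⟨c, d⟩ | ⟨c, d⟩ <;>
      simp only [cl, cm] <;>
      have h1 := a.2 <;> have h2 := b.2 <;> have h3 := c.2 <;> have h4 := d.2 <;>
      apply norm_le <;> omega
  have := h (cl x - cl y) (cm x - cm y) hnorm (by push_cast; linear_combination hxy)
  exact box_inj (by linarith [this.1]) (by linarith [this.2])

/-- The big box has a collision, which yields a relation with positive coefficients of sum
`2 s`. -/
theorem rel_of_small {n s : ℕ} [NeZero n] (hs : 1 ≤ s) {a b : ZMod n}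
    (h : PairInd n (2 * (s : ℤ) - 1) a b) (hn : n < 2 * s ^ 2 + s) :
    ∃ i : ℤ, 1 ≤ i ∧ i ≤ 2 * s - 1 ∧
      (i : ZMod n) * a + ((2 * (s : ℤ) - i : ℤ) : ZMod n) * b = 0 := by
  obtain ⟨x, y, hne, hxy⟩ := Fintype.exists_ne_map_eq_of_card_lt
    (fun x : Box (s + 1) s s s => ((cl x : ℤ) : ZMod n) * a + ((cm x : ℤ) : ZMod n) * b)
    (by
      simp only [Fintype.card_sum, Fintype.card_prod, Fintype.card_fin, ZMod.card]
      nlinarith)
  have key : ∀ (p q : Fin (s + 1) × Fin s), (p.1 : ℕ) = s → (q.1 : ℕ) = 0 →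
      ((cl (Sum.inl p : Box (s + 1) s s s) : ℤ) : ZMod n) * a +
        ((cm (Sum.inl p : Box (s + 1) s s s) : ℤ) : ZMod n) * b =
      ((cl (Sum.inl q : Box (s + 1) s s s) : ℤ) : ZMod n) * a +
        ((cm (Sum.inl q : Box (s + 1) s s s) : ℤ) : ZMod n) * b →
      ∃ i : ℤ, 1 ≤ i ∧ i ≤ 2 * s - 1 ∧
        (i : ZMod n) * a + ((2 * (s : ℤ) - i : ℤ) : ZMod n) * b = 0 := by
    intro p q hp hq hpq
    have h1 := p.2.2
    have h2 := q.2.2
    refine ⟨s + p.2 - q.2, by omega, by omega, ?_⟩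
    simp only [cl, cm, hp, hq] at hpq
    push_cast at hpq ⊢
    linear_combination hpq
  by_cases hnorm : |cl x - cl y| + |cm x - cm y| ≤ 2 * (s : ℤ) - 1
  · exfalso
    have := h (cl x - cl y) (cm x - cm y) hnorm (by push_cast; linear_combination hxy)
    exact hne (box_inj (by linarith [this.1]) (by linarith [this.2]))
  · rcases x with ⟨c, d⟩ | ⟨c, d⟩
    · rcases y with ⟨e, f⟩ | ⟨e, f⟩
      · by_cases hc : (c : ℕ) = s ∧ (e : ℕ) = 0
        · exact key (c, d) (e, f) hc.1 hc.2 hxy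
        · by_cases he : (e : ℕ) = s ∧ (c : ℕ) = 0
          · exact key (e, f) (c, d) he.1 he.2 hxy.symm
          · exfalso
            apply hnorm
            have h1 := c.2
            have h2 := d.2
            have h3 := e.2
            have h4 := f.2
            simp only [cl, cm]
            apply norm_le <;> omega
      · exfalso
        apply hnorm
        have h1 := c.2
        have h2 := d.2
        have h3 := e.2
        have h4 := f.2
        simp only [cl, cm]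
        apply norm_le <;> omega
    · rcases y with ⟨e, f⟩ | ⟨e, f⟩
      · exfalso
        apply hnorm
        have h1 := c.2
        have h2 := d.2
        have h3 := e.2
        have h4 := f.2
        simp only [cl, cm]
        apply norm_le <;> omega
      · exfalso
        apply hnorm
        have h1 := c.2
        have h2 := d.2
        have h3 := e.2
        have h4 := f.2
        simp only [cl, cm]
        apply norm_le <;> omega

theorem two_torsion_unique {n : ℕ} [NeZero n] {u v : ZMod n} (hu : 2 * u = 0) (hv : 2 * v = 0)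
    (hu0 : u ≠ 0) (hv0 : v ≠ 0) : u = v := by
  have key : ∀ w : ZMod n, 2 * w = 0 → w ≠ 0 → 2 * w.val = n := by
    intro w hw hw0
    have h1 : ((2 * w.val : ℕ) : ZMod n) = 0 := by
      push_cast
      rw [ZMod.natCast_zmod_val]
      exact hw
    rw [ZMod.natCast_eq_zero_iff] at h1
    have h2 : w.val < n := ZMod.val_lt w
    have h3 : w.val ≠ 0 := by
      intro h; exact hw0 ((ZMod.val_eq_zero w).mp h)
    obtain ⟨c, hc⟩ := h1
    have hc1 : c = 1 := by
      have : c < 2 := by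
        by_contra hcc
        push Not at hcc
        nlinarith
      have : c ≠ 0 := by
        rintro rfl
        omega
      omega
    rw [hc, hc1, mul_one]
  have h1 := key u hu hu0
  have h2 := key v hv hv0
  exact ZMod.val_injective n (by omega)

/-- Main nonexistence statement. -/
theorem nonexist {n s : ℕ} [NeZero n] (hs : 2 ≤ s) {a b : ZMod n}
    (h : PairInd n (2 * (s : ℤ) - 1) a b) (hn : n < 2 * s ^ 2 + s) :
    2 * s ^ 2 ≤ n ∧ Even n ∧ (Even s ∨ n % 4 = 2) := by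
  have hsz : (2 : ℤ) ≤ s := by exact_mod_cast hs
  have hinj := small_box_inj h
  have hcard : 2 * s ^ 2 ≤ n := by
    have := Fintype.card_le_of_injective _ hinj
    simp only [Fintype.card_sum, Fintype.card_prod, Fintype.card_fin, ZMod.card] at this
    nlinarith
  obtain ⟨i, hi1, hi2, hi⟩ := rel_of_small (by omega) h hn
  obtain ⟨j, hj1, hj2, hj⟩ := rel_of_small (by omega) (pairInd_neg h) hn
  set M : ℤ := 2 * s * (i + j) - 2 * i * j with hM
  have hMa : (M : ZMod n) * a = 0 := by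
    rw [hM]
    push_cast at hi hj ⊢
    linear_combination (2 * (s : ZMod n) - j) * hi + (2 * (s : ZMod n) - i) * hj
  have hMb : (M : ZMod n) * b = 0 := by
    rw [hM]
    push_cast at hi hj ⊢
    linear_combination (j : ZMod n) * hi - (i : ZMod n) * hj
  have hMpos : 0 < M := by
    rw [hM]; nlinarith
  have hMlt : M < 4 * s ^ 2 := by
    rw [hM]; nlinarith
  -- the kernel of multiplication by M is everything
  have hker : (n : ℤ) ∣ M := by
    set H : AddSubgroup (ZMod n) := (AddMonoidHom.mulLeft (M : ZMod n)).ker with hH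
    have hmem : ∀ x : Box s s s s,
        ((cl x : ℤ) : ZMod n) * a + ((cm x : ℤ) : ZMod n) * b ∈ H := by
      intro x
      rw [hH, AddMonoidHom.mem_ker, AddMonoidHom.coe_mulLeft]
      linear_combination ((cl x : ℤ) : ZMod n) * hMa + ((cm x : ℤ) : ZMod n) * hMb
    have hcH : 2 * s ^ 2 ≤ Nat.card H := by
      have h1 : Function.Injective (fun x : Box s s s s =>
          (⟨((cl x : ℤ) : ZMod n) * a + ((cm x : ℤ) : ZMod n) * b, hmem x⟩ : H)) := by
        intro x y hxy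
        exact hinj (Subtype.ext_iff.mp hxy)
      have h2 := Nat.card_le_card_of_injective _ h1
      simp only [Nat.card_eq_fintype_card, Fintype.card_sum, Fintype.card_prod,
        Fintype.card_fin] at h2 ⊢
      nlinarith
    have hdvd : Nat.card H ∣ Nat.card (ZMod n) := AddSubgroup.card_addSubgroup_dvd_card H
    rw [Nat.card_zmod] at hdvd
    obtain ⟨c, hc⟩ := hdvd
    have hc1 : c = 1 := by
      have h1 : c < 2 := by
        by_contra hcc
        push Not at hcc
        nlinarith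
      have h2 : c ≠ 0 := by
        rintro rfl
        have := NeZero.ne n
        omega
      omega
    rw [hc1, mul_one] at hc
    have htop : H = ⊤ := by
      apply AddSubgroup.eq_top_of_card_eq
      rw [Nat.card_zmod]
      exact hc.symm
    have h1 : (1 : ZMod n) ∈ H := by rw [htop]; trivial
    rw [hH, AddMonoidHom.mem_ker, AddMonoidHom.coe_mulLeft, mul_one] at h1
    rwa [ZMod.intCast_zmod_eq_zero_iff_dvd] at h1
  have hMn : M = n := by
    obtain ⟨c, hc⟩ := hker
    have hnz : 2 * (s : ℤ) ^ 2 ≤ n := by exact_mod_cast hcard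
    have hc1 : c = 1 := by
      have h1 : c < 2 := by
        by_contra hcc
        push Not at hcc
        nlinarith
      have h2 : 0 < c := by
        by_contra hcc
        push Not at hcc
        nlinarith
      omega
    rw [hc, hc1, mul_one]
  have hev : Even n := by
    have h1 : (2 : ℤ) ∣ n := ⟨s * (i + j) - i * j, by rw [← hMn, hM]; ring⟩
    exact (even_iff_two_dvd).mpr (by exact_mod_cast h1)
  refine ⟨hcard, hev, ?_⟩
  by_contra hcon
  push Not at hcon
  obtain ⟨hso, hn4⟩ := hcon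
  rw [Nat.not_even_iff_odd] at hso
  obtain ⟨e, he⟩ := hso
  have hse : (s : ℤ) = 2 * e + 1 := by rw [he]; push_cast; ring
  obtain ⟨f, hf⟩ : ∃ f : ℤ, (n : ℤ) = 4 * f := by
    obtain ⟨k, hk⟩ := hev
    refine ⟨(n / 4 : ℕ), by omega⟩
  -- i, j even
  have hpar : 2 ∣ (1 - i) * (1 - j) - 1 := by
    refine ⟨e * (i + j) - f, ?_⟩
    have : 2 * ((s : ℤ) * (i + j) - i * j) = 2 * (2 * f) := by
      have h1 : M = 4 * f := by rw [hMn, hf]
      rw [hM] at h1
      linarith
    have h2 : (s : ℤ) * (i + j) - i * j = 2 * f := by linarith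
    rw [hse] at h2
    linear_combination (-1) * h2
  have hij : 2 ∣ i ∧ 2 ∣ j := by
    rcases Int.even_or_odd i with hi' | hi' <;> rcases Int.even_or_odd j with hj' | hj'
    · exact ⟨hi'.two_dvd, hj'.two_dvd⟩
    · exfalso
      obtain ⟨k, hk⟩ := hj'
      have : (2 : ℤ) ∣ (1 - i) * (1 - j) := ⟨(1 - i) * (-k), by rw [hk]; ring⟩
      omega
    · exfalso
      obtain ⟨k, hk⟩ := hi'
      have : (2 : ℤ) ∣ (1 - i) * (1 - j) := ⟨(1 - j) * (-k), by rw [hk]; ring⟩
      omega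
    · exfalso
      obtain ⟨k, hk⟩ := hj'
      have : (2 : ℤ) ∣ (1 - i) * (1 - j) := ⟨(1 - i) * (-k), by rw [hk]; ring⟩
      omega
  obtain ⟨⟨p, hp⟩, ⟨q, hq⟩⟩ := hij
  have hp1 : 1 ≤ p := by omega
  have hq1 : 1 ≤ q := by omega
  set u : ZMod n := (p : ZMod n) * a + (((s : ℤ) - p : ℤ) : ZMod n) * b with hu
  set v : ZMod n := (q : ZMod n) * a + (((s : ℤ) - q : ℤ) : ZMod n) * (-b) with hv
  have hu2 : 2 * u = 0 := by
    rw [hp] at hi
    rw [hu]
    push_cast at hi ⊢
    linear_combination hi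
  have hv2 : 2 * v = 0 := by
    rw [hq] at hj
    rw [hv]
    push_cast at hj ⊢
    linear_combination hj
  have hu0 : u ≠ 0 := by
    intro h0
    have := h p ((s : ℤ) - p) (by apply norm_le <;> omega) h0
    omega
  have hv0 : v ≠ 0 := by
    intro h0
    have := pairInd_neg h q ((s : ℤ) - q) (by apply norm_le <;> omega) h0
    omega
  have huv := two_torsion_unique hu2 hv2 hu0 hv0
  have := h (p - q) (2 * s - p - q) (by apply norm_le <;> omega) (by
    rw [hu, hv] at huv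
    push_cast at huv ⊢
    linear_combination huv)
  omega

end Pool.Agent.H32.Cyc
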